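import Mathlib

/-!
# MP_a0a898: the snooker domination game on the 2 x 7 grid

The first player has a winning strategy in the snooker domination game on the grid
`P_2 □ P_7` (14 vertices, an even number).
-/

namespace Pool.Agent.Results.MP_a0a898_co.TwoBySeven

variable {V : Type} [DecidableEq V]

/-- `D` is a dominating set of `G`. -/
def Dominating (G : SimpleGraph V) (D : Finset V) : Prop :=
  ∀ v, v ∈ D ∨ ∃ w ∈ D, G.Adj v w

/-- `MoverWins G D`: in the snooker domination game on `G`, when the set of picked vertices is
`D` (not yet dominating), the player to move has a winning strategy.  That player picks an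
unpicked vertex `v`; either the picked set `insert v D` is dominating and he has won, or
whatever unpicked vertex `w` the opponent picks next, the set does not become dominating and
he still has a winning strategy from there.  (Least fixed point; if `insert v D` is not
dominating, then the opponent does have a move.) -/
inductive MoverWins (G : SimpleGraph V) : Finset V → Prop
  | last (D : Finset V) (v : V) (hv : v ∉ D) (h : Dominating G (insert v D)) : MoverWins G D
  | step (D : Finset V) (v : V) (hv : v ∉ D) (h : ¬ Dominating G (insert v D))
      (h1 : ∀ w, w ∉ insert v D → ¬ Dominating G (insert w (insert v D)))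
      (h2 : ∀ w, w ∉ insert v D → MoverWins G (insert w (insert v D))) : MoverWins G D

/-- The first player P1 has a winning strategy (the game starts with no vertex picked). -/
def FirstPlayerWins (G : SimpleGraph V) : Prop := MoverWins G ∅

/-- The grid `P_k □ P_m`. -/
def grid (k m : ℕ) : SimpleGraph (Fin k × Fin m) :=
  (SimpleGraph.pathGraph k).boxProd (SimpleGraph.pathGraph m)

/-! ### Bit masks -/

/-- code of a vertex -/
def code (v : Fin 2 × Fin 7) : ℕ := v.1.val + 2 * v.2.val

/-- vertex of a code -/
def vert (i : ℕ) : Fin 2 × Fin 7 := (Fin.ofNat 2 i, Fin.ofNat 7 (i / 2))

/-- set of a mask -/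
def toSet (s : ℕ) : Finset (Fin 2 × Fin 7) := Finset.univ.filter (fun v => s.testBit (code v))

/-- mask domination test for code `i` -/
def domAt (s i : ℕ) : Bool :=
  s.testBit i || s.testBit (i ^^^ 1) || (decide (i < 12) && s.testBit (i + 2)) ||
    (decide (2 ≤ i) && s.testBit (i - 2))

/-- list of codes -/
def codes : List ℕ := [0,1,2,3,4,5,6,7,8,9,10,11,12,13]

/-- the mask is dominating -/
def domB (s : ℕ) : Bool := codes.all (domAt s)

/-- positions of the strategy -/
def B : ℕ := 0x10000000000000001000000000000000000000000000000000000000000000000000000000000000000000000000000000000000000000000000000000000000100000000000000000000000000000000000000000000000000000000000000010000000000000000000000000000000000000000000000010000000000000106000000010000000000000000000000010000000000000000000000000000000000000000000000000000000000000000000000000000000000000000000000000000000000000001000000000000000000000000000000000000000000000000000000000000000100000000000000000000000000000001000000000000000000000001000001060000000000000001000000000000000000000000000000000000000000000000000000000000000000000000000000010000000000000000000000010000000000000000000000010000000000000001000000000001000000000001000000000001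0001000000010000000000000000000000010000000100000106000100010000000000000106000100010000000000000000000000000000000000000000000000000000000000000000000000000000000000000000000000000000000000000000000000000000000000000000000000000000000000000000000000000000000000000000000000000000000000000000000000000000000000000000000000000000000100000000000000000000000000000000000000000000000000000000000800000000000000000001000000000000000000000000000000000000000000000001080000000200000000000000000000000000000000000000000000000002000100000800020000000000000000000001000000000000000100000000000001060201020009000000000000000000000000000000000000000000000000080000000000000000000100000000000000000000000000000000000000000000000108000000020800000000000000000000000000000000000000000000000200010000080002080000000000000000000100000000000000010000000000080106020902080906000100000000000000000000000000000000000000000006000100000000000001060000000000000001000000000000000100000000000001060201000009000000000000000000000100000000000000010000000000010000000102000900000100000000000001060001000000000106000100000000000101060000000100000000000000000000000000000000000000000000000000000000000000000000000000000000000000000000000000000000000000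0000000000000000000000000000000000000000000000000000000000000000000000000000000000000000000000000000000000000100000000000000000000000100000000000000000000000000000000000000000000000000000000000800000000000000000000000000000000000000000001000000000000000000000001080000000200000100000000000100000000000100000000000100010002000100000800020000000000000100000001000001060001000100000000000001060200020109000000000000000000000000000000000000000000000000080000000000000000000000000000000000000000000000000000000000000000000108000000020800010000000000010000000000010000000000010001000200010000080002080000000000010000000100000000000100010000000000080106020802090906000100000000000100000000000100000000000100010006000100000000000000000000000100000001000000000001000100000000000000000200000109000106000100010106000100000106000100010106010600010106000002010900000100000106000101060001000101060106000000010000000100000106000100000000000000000000000000000000000000000000000800000000000000000000000000000000000000000000000000000000000000000000080000000208000000000000000000000000000000000000000000000002000000000800020800000000000000000000000000000000000000000000000800000208020809060000000000000008000000000000000000000008000808060000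080008000200000000000000000000000800000002000000080000000200080002000200090000000000000000020000000008000200000000020802020908000200020009000000000000000000000002000200090000000200020009000200090009000601000000000000000800000000000000000000000800080806000008000800020800000000000000000000080000000208000008000000020808000208020809060000000000000002000000000800020800000002080202090800020802080906000000000000000800000208020809060000020802080906020809060906060900000000000000060000000000000000000000060006060900000200020009000000000000000000000002000000090000000200000009000200090009000601000000000000000100000000020009000000000102010906020009000900060100000000000000000000000000000001000000000000000100000001000101061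

/-- local check -/
def chk (s : ℕ) : Bool :=
  codes.any (fun i => !s.testBit i &&
    (domB (s ||| (1 <<< i)) ||
      codes.all (fun j => (s ||| (1 <<< i)).testBit j ||
        (!domB (s ||| (1 <<< i) ||| (1 <<< j)) && B.testBit (s ||| (1 <<< i) ||| (1 <<< j))))))

/-- binary range check -/
def allBin (f : ℕ → Bool) : ℕ → ℕ → Bool
  | 0, b => f b
  | k + 1, b => allBin f k b && allBin f k (b + 2 ^ k)

theorem allBin_spec (f : ℕ → Bool) : ∀ (k b : ℕ), allBin f k b = true →
    ∀ s, b ≤ s → s < b + 2 ^ k → f s = true
  | 0, b, h, s, h1, h2 => by
      have : s = b := by simpa using (by omega : s = b)
      subst this; exact h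
  | k + 1, b, h, s, h1, h2 => by
      simp only [allBin, Bool.and_eq_true] at h
      rw [pow_succ] at h2
      by_cases hs : s < b + 2 ^ k
      · exact allBin_spec f k b h.1 s h1 hs
      · exact allBin_spec f k _ h.2 s (by omega) (by omega)

theorem check_all : allBin (fun s => !B.testBit s || chk s) 14 0 = true := by
  decide +kernel

theorem check_zero : B.testBit 0 = true := by decide +kernel

theorem check (s : ℕ) (hs : s < 2 ^ 14) (h : B.testBit s = true) : chk s = true := by
  have := allBin_spec _ 14 0 check_all s (Nat.zero_le _) (by simpa using hs)
  simpa [h] using this

theorem code_lt (v : Fin 2 × Fin 7) : code v < 14 := by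
  have h1 := v.1.isLt
  have h2 := v.2.isLt
  unfold code; omega

theorem mem_codes {i : ℕ} (h : i ∈ codes) : i < 14 := by
  simp only [codes, List.mem_cons, List.not_mem_nil, or_false] at h
  omega

theorem codes_mem {i : ℕ} (h : i < 14) : i ∈ codes := by
  simp only [codes, List.mem_cons, List.not_mem_nil, or_false]
  omega

theorem code_vert {i : ℕ} (h : i < 14) : code (vert i) = i := by
  simp only [code, vert, Fin.ofNat]
  omega

theorem code_inj {v w : Fin 2 × Fin 7} (h : code v = code w) : v = w := by
  have h1 := v.1.isLt
  have h2 := w.1.isLt
  unfold code at h
  apply Prod.ext
  · apply Fin.ext; omega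
  · apply Fin.ext; omega

theorem mem_toSet (s : ℕ) (v : Fin 2 × Fin 7) : v ∈ toSet s ↔ s.testBit (code v) = true := by
  simp [toSet]

theorem toSet_or (s : ℕ) (i : ℕ) (hi : i < 14) :
    toSet (s ||| (1 <<< i)) = insert (vert i) (toSet s) := by
  ext v
  rw [Finset.mem_insert, mem_toSet, mem_toSet, Nat.testBit_or, Nat.one_shiftLeft,
    Nat.testBit_two_pow, Bool.or_eq_true, decide_eq_true_eq]
  constructor
  · rintro (h | h)
    · exact Or.inr h
    · left; apply code_inj; rw [code_vert hi, h]
  · rintro (h | h)
    · right; rw [h, code_vert hi]
    · exact Or.inl h

theorem adj_iff (v w : Fin 2 × Fin 7) : (grid 2 7).Adj v w ↔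
    ((v.1.val ≠ w.1.val ∧ v.2.val = w.2.val) ∨
      (v.1.val = w.1.val ∧ (v.2.val + 1 = w.2.val ∨ w.2.val + 1 = v.2.val))) := by
  unfold grid
  rw [SimpleGraph.boxProd_adj, SimpleGraph.pathGraph_adj, SimpleGraph.pathGraph_adj,
    Fin.ext_iff, Fin.ext_iff]
  have h1 := v.1.isLt
  have h2 := w.1.isLt
  omega

theorem domAt_iff (s : ℕ) (v : Fin 2 × Fin 7) :
    domAt s (code v) = true ↔ (v ∈ toSet s ∨ ∃ w ∈ toSet s, (grid 2 7).Adj v w) := by
  have hv1 := v.1.isLt
  have hv2 := v.2.isLt
  have hx : code v ^^^ 1 = (1 - v.1.val) + 2 * v.2.val := by
    have : ∀ a < 2, ∀ b < 7, (a + 2 * b) ^^^ 1 = (1 - a) + 2 * b := by decide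
    exact this _ hv1 _ hv2
  simp only [domAt, Bool.or_eq_true, Bool.and_eq_true, decide_eq_true_eq, hx]
  rw [mem_toSet]
  constructor
  · rintro (((h | h) | h) | h)
    · exact Or.inl h
    · right
      refine ⟨(⟨1 - v.1.val, by omega⟩, v.2), ?_, ?_⟩
      · rw [mem_toSet]; exact h
      · rw [adj_iff]; left
        refine ⟨?_, rfl⟩
        show v.1.val ≠ 1 - v.1.val
        omega
    · right
      have hlt := h.1
      unfold code at hlt
      refine ⟨(v.1, ⟨v.2.val + 1, by omega⟩), ?_, ?_⟩
      · rw [mem_toSet]
        have : code (v.1, (⟨v.2.val + 1, by omega⟩ : Fin 7)) = code v + 2 := by
          simp only [code]; omega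
        rw [this]; exact h.2
      · rw [adj_iff]; right
        exact ⟨rfl, Or.inl rfl⟩
    · right
      have hlt := h.1
      unfold code at hlt
      refine ⟨(v.1, ⟨v.2.val - 1, by omega⟩), ?_, ?_⟩
      · rw [mem_toSet]
        have : code (v.1, (⟨v.2.val - 1, by omega⟩ : Fin 7)) = code v - 2 := by
          simp only [code]; omega
        rw [this]; exact h.2
      · rw [adj_iff]; right
        refine ⟨rfl, Or.inr ?_⟩
        show v.2.val - 1 + 1 = v.2.val
        omega
  · rintro (h | ⟨w, hw, ha⟩)
    · exact Or.inl (Or.inl (Or.inl h))
    · rw [mem_toSet] at hw
      rw [adj_iff] at ha
      have hw1 := w.1.isLt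
      have hw2 := w.2.isLt
      rcases ha with ⟨h1, h2⟩ | ⟨h1, h2 | h2⟩
      · left; left; right
        have : 1 - v.1.val + 2 * v.2.val = code w := by unfold code; omega
        rw [this]; exact hw
      · left; right
        have : code v + 2 = code w := by unfold code; omega
        refine ⟨by unfold code; omega, ?_⟩
        rw [this]; exact hw
      · right
        have : code v - 2 = code w := by unfold code; omega
        refine ⟨by unfold code; omega, ?_⟩
        rw [this]; exact hw

theorem domB_iff (s : ℕ) : domB s = true ↔ Dominating (grid 2 7) (toSet s) := by
  unfold domB Dominating
  rw [List.all_eq_true]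
  constructor
  · intro h v
    exact (domAt_iff s v).1 (h _ (codes_mem (code_lt v)))
  · intro h i hi
    have := (domAt_iff s (vert i)).2 (h (vert i))
    rwa [code_vert (mem_codes hi)] at this

theorem lt_or {s i : ℕ} (h : s.testBit i = false) : s < s ||| (1 <<< i) := by
  rcases Nat.lt_or_ge s (s ||| (1 <<< i)) with h1 | h1
  · exact h1
  · have h2 : s ≤ s ||| (1 <<< i) := Nat.left_le_or
    have h3 : (s ||| (1 <<< i)) = s := le_antisymm h1 h2
    have h4 : (s ||| (1 <<< i)).testBit i = true := by
      rw [Nat.testBit_or, Nat.one_shiftLeft, Nat.testBit_two_pow_self, Bool.or_true]
    rw [h3, h] at h4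
    exact absurd h4 (by simp)

theorem or_lt {s i : ℕ} (hs : s < 2 ^ 14) (hi : i < 14) : s ||| (1 <<< i) < 2 ^ 14 := by
  apply Nat.or_lt_two_pow hs
  rw [Nat.one_shiftLeft]
  exact Nat.pow_lt_pow_right (by norm_num) hi

theorem wins_of : ∀ (n s : ℕ), 2 ^ 14 - s ≤ n → s < 2 ^ 14 → B.testBit s = true →
    MoverWins (grid 2 7) (toSet s)
  | 0, s, h1, h2, _ => by omega
  | n + 1, s, h1, h2, h3 => by
      have h := check s h2 h3
      unfold chk at h
      rw [List.any_eq_true] at h
      obtain ⟨i, hi, h⟩ := h
      have hi' := mem_codes hi
      rw [Bool.and_eq_true, Bool.not_eq_true', Bool.or_eq_true] at h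
      obtain ⟨hb, h⟩ := h
      have hv : vert i ∉ toSet s := by
        rw [mem_toSet, code_vert hi', hb]; simp
      rcases h with h | h
      · refine MoverWins.last _ (vert i) hv ?_
        rw [← toSet_or s i hi']
        exact (domB_iff _).1 h
      · by_cases hd : Dominating (grid 2 7) (insert (vert i) (toSet s))
        · exact MoverWins.last _ (vert i) hv hd
        · rw [List.all_eq_true] at h
          have key : ∀ w, w ∉ insert (vert i) (toSet s) →
              ¬ Dominating (grid 2 7) (insert w (insert (vert i) (toSet s))) ∧
              MoverWins (grid 2 7) (insert w (insert (vert i) (toSet s))) := by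
            intro w hw
            rw [← toSet_or s i hi'] at hw ⊢
            have hc := h _ (codes_mem (code_lt w))
            have hwv : vert (code w) = w := by
              apply code_inj; rw [code_vert (code_lt w)]
            have hwb : (s ||| (1 <<< i)).testBit (code w) = false := by
              rw [mem_toSet] at hw; simpa using hw
            rw [hwb, Bool.false_or, Bool.and_eq_true, Bool.not_eq_true'] at hc
            have hins : insert w (toSet (s ||| (1 <<< i))) =
                toSet (s ||| (1 <<< i) ||| (1 <<< code w)) := by
              rw [toSet_or _ _ (code_lt w), hwv]
            rw [hins]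
            refine ⟨?_, ?_⟩
            · rw [← domB_iff, hc.1]; simp
            · apply wins_of n _ _ (or_lt (or_lt h2 hi') (code_lt w)) hc.2
              have l1 := lt_or hb
              have l2 := lt_or hwb
              omega
          exact MoverWins.step _ (vert i) hv hd (fun w hw => (key w hw).1)
            (fun w hw => (key w hw).2)

theorem toSet_zero : toSet 0 = ∅ := by
  ext v; simp [mem_toSet]

/-- The first player wins on the `2 × 7` grid. -/
theorem first_wins : FirstPlayerWins (grid 2 7) := by
  unfold FirstPlayerWins
  rw [← toSet_zero]
  exact wins_of _ 0 le_rfl (by norm_num) check_zero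

/-- **Disproof of the conjecture.** There are `k, m ≥ 2` with `k m` even such that the first
player has a winning strategy in the snooker domination game on `P_k □ P_m`; in fact
`k = 2`, `m = 7` works. -/
theorem result : FirstPlayerWins (grid 2 7) ∧
    ¬ ∀ k m : ℕ, 2 ≤ k → 2 ≤ m → Even (k * m) → ¬ FirstPlayerWins (grid k m) :=
  ⟨first_wins, fun h => h 2 7 le_rfl (by norm_num) (by decide) first_wins⟩

end Pool.Agent.Results.MP_a0a898_co.TwoBySeven
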